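import Mathlib

/-!
# The boundary independence number is at most the order minus the minimum degree

For a boundary independent broadcast `f` the sets `{u : d(u, v) < f v}`, `v` broadcasting, are
pairwise disjoint, and such a set has at least `f v` elements, and at least `f v + δ - 1` elements
when `f v ≥ 2`.
-/

set_option autoImplicit false

namespace Pool.Agent.Results.MP_8bdd73_co.BoundHolds

open Finset

variable {V : Type*} [Fintype V]

/-- The eccentricity of `v` in its component: the largest distance from `v` to a vertex of the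
component of `v` (`SimpleGraph.dist` is `0` between different components). -/
noncomputable def ecc (G : SimpleGraph V) (v : V) : ℕ := univ.sup fun u => G.dist v u

/-- A broadcast: `f v ≤ e(v)` for all vertices `v` that lie in a component with at least two
vertices, and `f v = 1` if `v` is isolated. -/
def IsBroadcast (G : SimpleGraph V) (f : V → ℕ) : Prop :=
  ∀ v, ((∃ u, G.Adj v u) → f v ≤ ecc G v) ∧ ((¬ ∃ u, G.Adj v u) → f v = 1)

/-- The ball `N_f(v)` of the vertices at distance at most `f v` from `v`. -/
def ball (G : SimpleGraph V) (f : V → ℕ) (v : V) : Set V := {u | G.edist u v ≤ f v}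

/-- The boundary `B_f(v)`: the vertices at distance exactly `f v` from `v`. -/
def bdry (G : SimpleGraph V) (f : V → ℕ) (v : V) : Set V := {u | G.edist u v = f v}

/-- `f` is boundary independent: balls of distinct broadcasting vertices meet only in vertices that
lie on both boundaries. -/
def BnIndependent (G : SimpleGraph V) (f : V → ℕ) : Prop :=
  ∀ u v, u ≠ v → 0 < f u → 0 < f v → ball G f u ∩ ball G f v ⊆ bdry G f u ∩ bdry G f v

/-- The weights of the boundary independent broadcasts on `G`. -/
def weights (G : SimpleGraph V) : Set ℕ :=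
  {s | ∃ f : V → ℕ, IsBroadcast G f ∧ BnIndependent G f ∧ ∑ v, f v = s}

/-- The boundary independence number. -/
noncomputable def alphaBn (G : SimpleGraph V) : ℕ := sSup (weights G)

theorem dist_le_ecc (G : SimpleGraph V) (v u : V) : G.dist v u ≤ ecc G v :=
  Finset.le_sup (f := fun u => G.dist v u) (mem_univ u)

theorem exists_dist_eq_ecc (G : SimpleGraph V) (v : V) : ∃ u, G.dist v u = ecc G v := by
  obtain ⟨u, -, hu⟩ := Finset.exists_mem_eq_sup (univ : Finset V) ⟨v, mem_univ v⟩
    (fun u => G.dist v u)
  exact ⟨u, hu.symm⟩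

theorem exists_pred (G : SimpleGraph V) (v u : V) (n : ℕ) (h : G.dist v u = n + 1) :
    ∃ w, G.dist v w = n := by
  have hr : G.Reachable v u := by
    by_contra hc
    rw [SimpleGraph.dist_eq_zero_of_not_reachable hc] at h
    omega
  obtain ⟨p, hp⟩ := hr.symm.exists_walk_length_eq_dist
  rw [SimpleGraph.dist_comm, h] at hp
  cases p with
  | nil => simp at hp
  | @cons _ w _ ha q =>
    rw [SimpleGraph.Walk.length_cons] at hp
    have h1 : G.dist v w ≤ n := by
      rw [SimpleGraph.dist_comm]
      exact (SimpleGraph.dist_le q).trans (by omega)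
    have h2 : G.dist v u ≤ G.dist v w + G.dist w u :=
      SimpleGraph.Reachable.dist_triangle_left (G := G) q.reverse.reachable u
    have h3 : G.dist w u = 1 := SimpleGraph.dist_eq_one_iff_adj.2 ha.symm
    exact ⟨w, by omega⟩

theorem exists_dist_eq (G : SimpleGraph V) (v u : V) (n k : ℕ) (h : G.dist v u = n) (hk : k ≤ n) :
    ∃ w, G.dist v w = k := by
  induction n generalizing u with
  | zero => exact ⟨u, by omega⟩
  | succ n ih =>
    rcases Nat.lt_or_ge k (n + 1) with hk' | hk'
    · obtain ⟨w, hw⟩ := exists_pred G v u n h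
      exact ih w hw (by omega)
    · exact ⟨u, by omega⟩

open Classical in
/-- The interior of the ball around `v`. -/
noncomputable def inner (G : SimpleGraph V) (f : V → ℕ) (v : V) : Finset V :=
  univ.filter fun u => G.edist u v < f v

theorem le_ecc {G : SimpleGraph V} {f : V → ℕ} (hf : IsBroadcast G f) {v : V} (h : 2 ≤ f v) :
    f v ≤ ecc G v := by
  by_cases h1 : ∃ u, G.Adj v u
  · exact (hf v).1 h1
  · have := (hf v).2 h1
    omega

theorem exists_lvl {G : SimpleGraph V} {f : V → ℕ} (hf : IsBroadcast G f) {v : V} (h : 2 ≤ f v)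
    (k : ℕ) (hk : k ≤ f v) (hk0 : 0 < k) : ∃ w, G.edist w v = k := by
  obtain ⟨u, hu⟩ := exists_dist_eq_ecc G v
  obtain ⟨w, hw⟩ := exists_dist_eq G v u _ k hu (hk.trans (le_ecc hf h))
  refine ⟨w, ?_⟩
  have hr : G.Reachable v w := by
    by_contra hc
    rw [SimpleGraph.dist_eq_zero_of_not_reachable hc] at hw
    omega
  rw [SimpleGraph.edist_comm, ← hr.coe_dist_eq_edist, hw]

theorem degree_pos {G : SimpleGraph V} [DecidableRel G.Adj] {f : V → ℕ} (hf : IsBroadcast G f)
    {v : V} (h : 2 ≤ f v) : 0 < G.degree v := by
  obtain ⟨w, hw⟩ := exists_lvl hf h 1 (by omega) (by omega)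
  have : G.Adj w v := SimpleGraph.edist_eq_one_iff_adj.1 (by exact_mod_cast hw)
  rw [← SimpleGraph.card_neighborFinset_eq_degree, Finset.card_pos]
  exact ⟨w, by rw [SimpleGraph.mem_neighborFinset]; exact this.symm⟩

theorem card_inner {G : SimpleGraph V} [DecidableRel G.Adj] {f : V → ℕ} (hf : IsBroadcast G f)
    {v : V} (h : 2 ≤ f v) : f v + G.degree v ≤ (inner G f v).card + 1 := by
  classical
  have hex : ∀ k : ℕ, ∃ w, 0 < k → k ≤ f v → G.edist w v = k := by
    intro k
    by_cases hk : 0 < k ∧ k ≤ f v
    · obtain ⟨w, hw⟩ := exists_lvl hf h k hk.2 hk.1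
      exact ⟨w, fun _ _ => hw⟩
    · exact ⟨v, fun h1 h2 => (hk ⟨h1, h2⟩).elim⟩
  choose x hx using hex
  have hsub : insert v (G.neighborFinset v) ∪ (Finset.Ico 2 (f v)).image x ⊆ inner G f v := by
    intro w hw
    rw [mem_union, mem_insert, mem_image] at hw
    rw [inner, mem_filter]
    refine ⟨mem_univ _, ?_⟩
    rcases hw with (rfl | hw) | ⟨k, hk, rfl⟩
    · rw [SimpleGraph.edist_self]
      exact_mod_cast (by omega : 0 < f w)
    · rw [SimpleGraph.mem_neighborFinset] at hw
      rw [SimpleGraph.edist_eq_one_iff_adj.2 hw.symm]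
      exact_mod_cast (by omega : 1 < f v)
    · rw [Finset.mem_Ico] at hk
      rw [hx k (by omega) (by omega)]
      exact_mod_cast hk.2
  have hdisj : Disjoint (insert v (G.neighborFinset v)) ((Finset.Ico 2 (f v)).image x) := by
    rw [Finset.disjoint_left]
    intro w hw hw'
    rw [mem_image] at hw'
    obtain ⟨k, hk, rfl⟩ := hw'
    rw [Finset.mem_Ico] at hk
    have h1 := hx k (by omega) (by omega)
    rw [mem_insert, SimpleGraph.mem_neighborFinset] at hw
    rcases hw with hw | hw
    · rw [hw, SimpleGraph.edist_self] at h1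
      have : (0 : ℕ) = k := by exact_mod_cast h1
      omega
    · rw [SimpleGraph.edist_eq_one_iff_adj.2 hw.symm] at h1
      have : (1 : ℕ) = k := by exact_mod_cast h1
      omega
  have hcard := Finset.card_le_card hsub
  rw [Finset.card_union_of_disjoint hdisj, Finset.card_insert_of_notMem (by simp),
    Finset.card_image_of_injOn, Nat.card_Ico, SimpleGraph.card_neighborFinset_eq_degree] at hcard
  · omega
  · intro a ha b hb hab
    simp only [Finset.coe_Ico, Set.mem_Ico] at ha hb
    have h1 := hx a (by omega) (by omega)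
    have h2 := hx b (by omega) (by omega)
    rw [hab, h2] at h1
    exact_mod_cast h1.symm

theorem weight_bound {G : SimpleGraph V} [DecidableRel G.Adj] {f : V → ℕ} (hf : IsBroadcast G f)
    (hb : BnIndependent G f) : ∑ v, f v + G.minDegree ≤ Fintype.card V := by
  classical
  set P : Finset V := univ.filter fun v => 0 < f v with hP
  have hsumP : ∑ v, f v = ∑ v ∈ P, f v := by
    rw [hP, Finset.sum_filter]
    refine Finset.sum_congr rfl fun v _ => ?_
    split_ifs <;> omega
  have hself : ∀ v, 0 < f v → v ∈ inner G f v := by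
    intro v hv
    rw [inner, mem_filter, SimpleGraph.edist_self]
    exact ⟨mem_univ _, by exact_mod_cast hv⟩
  have hout : ∀ u v w, u ≠ v → 0 < f u → 0 < f v → w ∈ ball G f u → w ∉ inner G f v := by
    intro u v w huv hu hv hw hw'
    rw [inner, mem_filter] at hw'
    have h1 := hb u v huv hu hv ⟨hw, (le_of_lt hw'.2 : w ∈ ball G f v)⟩
    have h2 : G.edist w v = f v := h1.2
    exact absurd hw'.2 (by rw [h2]; exact lt_irrefl _)
  have hdisj : (P : Set V).PairwiseDisjoint (inner G f) := by
    intro u hu v hv huv
    rw [hP, Finset.coe_filter] at hu hv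
    rw [Function.onFun, Finset.disjoint_left]
    intro w hw
    refine hout u v w huv hu.2 hv.2 ?_
    rw [inner, mem_filter] at hw
    exact le_of_lt hw.2
  by_cases hA : ∃ v, 2 ≤ f v
  · obtain ⟨v₀, hv₀⟩ := hA
    have hv₀P : v₀ ∈ P := by rw [hP, mem_filter]; exact ⟨mem_univ _, by omega⟩
    obtain ⟨w₀, hw₀⟩ := exists_lvl hf hv₀ (f v₀) le_rfl (by omega)
    have hw₀' : ∀ v ∈ P, w₀ ∉ inner G f v := by
      intro v hv
      rw [hP, mem_filter] at hv
      by_cases h : v₀ = v
      · subst h
        rw [inner, mem_filter, hw₀]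
        exact fun h => lt_irrefl _ h.2
      · exact hout v₀ v w₀ h (by omega) hv.2 (le_of_eq hw₀)
    have hb1 : (P.biUnion (inner G f)).card = ∑ v ∈ P, (inner G f v).card :=
      Finset.card_biUnion fun u hu v hv huv => hdisj hu hv huv
    have hb2 : (P.biUnion (inner G f)).card + 1 ≤ Fintype.card V := by
      have : w₀ ∉ P.biUnion (inner G f) := by
        rw [mem_biUnion]
        rintro ⟨v, hv, h⟩
        exact hw₀' v hv h
      rw [← Finset.card_insert_of_notMem this]
      exact Finset.card_le_univ _
    have hb3 : ∑ v ∈ P, f v + G.minDegree ≤ ∑ v ∈ P, (inner G f v).card + 1 := by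
      rw [← Finset.add_sum_erase _ _ hv₀P, ← Finset.add_sum_erase _ (fun v => (inner G f v).card)
        hv₀P]
      have h1 := card_inner (G := G) hf hv₀
      have h2 : ∑ v ∈ P.erase v₀, f v ≤ ∑ v ∈ P.erase v₀, (inner G f v).card := by
        refine Finset.sum_le_sum fun v hv => ?_
        rw [mem_erase, hP, mem_filter] at hv
        rcases Nat.lt_or_ge (f v) 2 with h | h
        · have : 0 < (inner G f v).card := Finset.card_pos.2 ⟨v, hself v hv.2.2⟩
          omega
        · have h3 := card_inner (G := G) hf h
          have h4 : 0 < G.degree v := degree_pos hf h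
          omega
      have h3 := G.minDegree_le_degree v₀
      omega
    omega
  · push Not at hA
    have hsum : ∑ v ∈ P, f v = P.card := by
      rw [Finset.card_eq_sum_ones]
      refine Finset.sum_congr rfl fun v hv => ?_
      rw [hP, mem_filter] at hv
      have := hA v
      omega
    rw [hsumP, hsum]
    rcases P.eq_empty_or_nonempty with hPe | ⟨v, hv⟩
    · rw [hPe, Finset.card_empty, zero_add]
      rcases isEmpty_or_nonempty V with hV | ⟨⟨v⟩⟩
      · have : G.minDegree = 0 := by
          rw [SimpleGraph.minDegree]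
          simp
        omega
      · exact (G.minDegree_le_degree v).trans (G.degree_lt_card_verts v).le
    · have hPv := hv
      rw [hP, mem_filter] at hv
      have hd : Disjoint P (G.neighborFinset v) := by
        rw [Finset.disjoint_left]
        intro u hu hu'
        rw [hP, mem_filter] at hu
        rw [SimpleGraph.mem_neighborFinset] at hu'
        refine hout u v v hu'.ne' hu.2 hv.2 ?_ (hself v hv.2)
        have : G.edist v u ≤ f u := by
          rw [SimpleGraph.edist_eq_one_iff_adj.2 hu']
          exact_mod_cast hu.2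
        exact this
      have h1 := Finset.card_le_univ (P ∪ G.neighborFinset v)
      rw [Finset.card_union_of_disjoint hd, SimpleGraph.card_neighborFinset_eq_degree] at h1
      have h2 := G.minDegree_le_degree v
      omega

theorem weights_nonempty (G : SimpleGraph V) : (weights G).Nonempty := by
  classical
  refine ⟨_, fun v => if ∃ u, G.Adj v u then 0 else 1, ?_, ?_, rfl⟩
  · intro v
    constructor
    · intro h
      simp [h]
    · intro h
      simp only [h, if_false]
  · intro u v huv hu hv w hw
    exfalso
    have hu' : ¬ ∃ x, G.Adj u x := by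
      by_contra hc
      simp [hc] at hu
    have hw1 : G.edist w u ≤ 1 := by
      have := hw.1
      simp only [ball, Set.mem_setOf_eq, hu', if_false] at this
      exact_mod_cast this
    have hv' : ¬ ∃ x, G.Adj v x := by
      by_contra hc
      simp [hc] at hv
    have hw2 : G.edist w v ≤ 1 := by
      have := hw.2
      simp only [ball, Set.mem_setOf_eq, hv', if_false] at this
      exact_mod_cast this
    rw [SimpleGraph.edist_le_one_iff_adj_or_eq] at hw1 hw2
    rcases hw1 with h | h
    · exact hu' ⟨w, h.symm⟩
    · rcases hw2 with h' | h'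
      · exact hv' ⟨w, h'.symm⟩
      · exact huv (h.symm.trans h')

/-- For every finite simple graph `G` of order `n` with minimum degree `δ`, the boundary
independence number (a maximum that is attained) is at most `n - δ`. -/
theorem result : ∀ (V : Type*) [Fintype V] (G : SimpleGraph V) [DecidableRel G.Adj],
    IsGreatest (weights G) (alphaBn G) ∧ alphaBn G + G.minDegree ≤ Fintype.card V := by
  intro V _ G _
  have hbdd : BddAbove (weights G) := by
    refine ⟨Fintype.card V, ?_⟩
    rintro s ⟨f, hf, hb, rfl⟩
    have := weight_bound hf hb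
    omega
  have hmem : alphaBn G ∈ weights G := Nat.sSup_mem (weights_nonempty G) hbdd
  refine ⟨⟨hmem, fun s hs => le_csSup hbdd hs⟩, ?_⟩
  obtain ⟨f, hf, hb, hs⟩ := hmem
  rw [← hs]
  exact weight_bound hf hb

end Pool.Agent.Results.MP_8bdd73_co.BoundHolds
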